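import Pool.Agent.Work.MP_8efaaa_nt.NC.Main

/-!
# Congruent numbers and the narrow class group of the quadratic field of discriminant `a` or `-a`

Let `a = 5` or `7 (mod 8)` be squarefree, and let `F` be the quadratic field of discriminant `a` (if `a = 5 (mod 8)`) or
`-a` (if `a = 7 (mod 8)`). Let `v` be a prime ideal of `F` that contains `2`. If `8` does not divide the index, in the
narrow class group of `F`, of the subgroup generated by the square of the class of `v`, then `a` is a congruent number.

The narrow class group of `F` is the group of the fractional ideals modulo the principal ideals with a generator of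
positive norm (for an imaginary field these are all the principal ideals). So the index of the statement is the index, in
the group of the fractional ideals, of the subgroup generated by `v ^ 2` and these principal ideals. For `a = 5 (mod 8)`
the prime ideal `v` is `(2)`, and the index is the narrow class number of the real quadratic field `Q(sqrt a)`.

`IsCongruent` is defined in `Pool.Agent.Work.MP_8efaaa_nt.Defs`.
-/

set_option autoImplicit false

namespace Pool.Agent.Results.MP_8efaaa_nt.NarrowClassGroup

open NumberField IsDedekindDomain Pool.Agent.Work.MP_8efaaa_nt
open scoped nonZeroDivisors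

/-- Let `a = 5` or `7 (mod 8)` be squarefree and let `F` be the quadratic field generated by a square root `f` of `a`
(if `a = 5`) or of `-a` (if `a = 7`), and `v` a prime ideal of `F` above `2`. If `8` does not divide the index in the
narrow class group of `F` of the subgroup generated by the square of the class of `v`, then `a` is congruent. -/
theorem result {F : Type*} [Field F] [NumberField F] (hF : Module.finrank ℚ F = 2)
    (a : ℕ) (ha : Squarefree a) (f : F) (hf : a % 8 = 5 ∧ f ^ 2 = a ∨ a % 8 = 7 ∧ f ^ 2 = -a)
    (v : HeightOneSpectrum (𝓞 F)) (hv : (2 : 𝓞 F) ∈ v.asIdeal)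
    (h : ¬ 8 ∣ (Subgroup.closure {I : (FractionalIdeal (𝓞 F)⁰ F)ˣ |
      (I : FractionalIdeal (𝓞 F)⁰ F) = (v.asIdeal : FractionalIdeal (𝓞 F)⁰ F) ^ 2 ∨
        ∃ x : F, 0 < Algebra.norm ℚ x ∧
          (I : FractionalIdeal (𝓞 F)⁰ F) = FractionalIdeal.spanSingleton (𝓞 F)⁰ x}).index) :
    IsCongruent a :=
  NC.main_nc hF ha hf v hv h

end Pool.Agent.Results.MP_8efaaa_nt.NarrowClassGroup
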