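import Pool.Agent.Work.MP_8efaaa_nt.E3.Main

/-!
# Congruent numbers with three odd prime factors and 2-Selmer rank one

Let `a = 5, 6` or `7 (mod 8)` be squarefree with exactly three odd prime factors. If Monsky's `6 × 6` matrix of `a`
over the field with two elements has rank `5`, that is (Monsky), if the 2-Selmer group of
`y ^ 2 = x ^ 3 - a ^ 2 x` modulo torsion has order two, then `a` is a congruent number.

`IsCongruent` is defined in `Pool.Agent.Work.MP_8efaaa_nt.Defs`.
-/

set_option autoImplicit false

namespace Pool.Agent.Results.MP_8efaaa_nt.SelmerRankOne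

open Pool.Agent.Work.MP_8efaaa_nt

/-- `1` if `u` is a quadratic nonresidue modulo the prime `p`, else `0` -/
def nr (u : ℤ) (p : ℕ) : ZMod 2 := if jacobiSym u p = -1 then 1 else 0

/-- The matrix `A`, indexed by the prime factors of `m`: the entry at `(p, q)`, `p ≠ q`, is `1` if `q` is a
quadratic nonresidue modulo `p` and `0` otherwise; the sum of each row is `0`. -/
def A (m : ℕ) : Matrix m.primeFactors m.primeFactors (ZMod 2) :=
  fun p q => if p = q then ∑ r : m.primeFactors, (if r = p then 0 else nr (r : ℕ) p)
    else nr (q : ℕ) p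

/-- The diagonal matrix `D_u`: `1` if `u` is a quadratic nonresidue modulo `p`, else `0`. -/
def D (m : ℕ) (u : ℤ) : Matrix m.primeFactors m.primeFactors (ZMod 2) :=
  Matrix.diagonal fun p => nr u p

/-- Monsky's matrix of `a = m` (`a` odd) or `a = 2 m` (`a` even). -/
def monskyMatrix (a m : ℕ) :
    Matrix (m.primeFactors ⊕ m.primeFactors) (m.primeFactors ⊕ m.primeFactors) (ZMod 2) :=
  if a % 2 = 1 then Matrix.fromBlocks (A m + D m 2) (D m 2) (D m 2) (A m + D m (-2))
  else Matrix.fromBlocks (D m 2) (A m + D m 2) ((A m).transpose + D m 2) (D m (-1))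

/-- the odd part of a squarefree number -/
def oddPart (a : ℕ) : ℕ := if a % 2 = 1 then a else a / 2

/-- A squarefree `a = 5, 6, 7 (mod 8)` with exactly three odd prime factors and Monsky matrix of rank `5` is a
congruent number. -/
theorem result {a : ℕ} (ha : Squarefree a) (h8 : a % 8 = 5 ∨ a % 8 = 6 ∨ a % 8 = 7)
    (h3 : (oddPart a).primeFactors.card = 3) (hr : (monskyMatrix a (oddPart a)).rank = 5) :
    IsCongruent a := by
  by_cases ho : a % 2 = 1
  · have h1 : oddPart a = a := if_pos ho
    rw [h1] at h3 hr
    have h2 : monskyMatrix a a = SR.monsky a := if_pos ho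
    rw [h2] at hr
    exact SR.main_sr ha (by omega) h3.le (by rw [h3, hr])
  · obtain ⟨m, rfl⟩ : ∃ m, a = 2 * m := ⟨a / 2, by omega⟩
    have h1 : oddPart (2 * m) = m := by
      unfold oddPart
      rw [if_neg ho]
      omega
    rw [h1] at h3 hr
    have h2 : monskyMatrix (2 * m) m = E3.monskyE m := if_neg ho
    rw [h2] at hr
    exact E3.main_even' ha h8 h3 (by rw [hr])

end Pool.Agent.Results.MP_8efaaa_nt.SelmerRankOne
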