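import Mathlib
import Pool.Agent.Work.MP_8efaaa_nt.Defs
import Pool.Agent.Work.MP_8efaaa_nt.O.Count

set_option autoImplicit false

open Pool.Agent.Work.MP_8efaaa_nt

/-- Small congruent multiples in every residue class: every squarefree `a` has a squarefree
`b = 1 (mod 8)`, coprime to `a`, with `a * b` congruent and `b ≤ K a ^ (1 + ε)`, and in every class
`c` (not divisible by `4`, even if `a` is even) there are at least `κ X ^ (1/2 - ε) / a` squarefree
congruent multiples `n ≤ X` of `a`, as soon as this number is at least `1`. -/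
theorem Pool.Agent.Results.MP_8efaaa_nt.SmallMultiplesAllClasses.result (ε : ℝ) (hε : 0 < ε) :
    ∃ K κ : ℝ, 0 < κ ∧ ∀ a : ℕ, Squarefree a →
      (∃ b : ℕ, Squarefree b ∧ Nat.Coprime a b ∧ b % 8 = 1 ∧
        (b : ℝ) ≤ K * (a : ℝ) ^ (1 + ε) ∧ IsCongruent (a * b)) ∧
      ∀ c X : ℕ, ¬ 4 ∣ c → (2 ∣ a → 2 ∣ c) → (a : ℝ) ≤ κ * (X : ℝ) ^ (1 / 2 - ε) →
        κ * (X : ℝ) ^ (1 / 2 - ε) / a ≤
          ({n : ℕ | n ≤ X ∧ Squarefree n ∧ a ∣ n ∧ n % 8 = c % 8 ∧
            (2 ∣ c → n % 16 = c % 16) ∧ IsCongruent n}.ncard : ℝ) := by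
  obtain ⟨K, hK⟩ := O.main_all ε hε
  obtain ⟨κ, hκ0, hκ⟩ := O.count ε hε
  refine ⟨K, κ, hκ0, fun a ha => ⟨?_, fun c X hc4 hac hX => hκ a ha c hc4 hac X hX⟩⟩
  have ha0 : 0 < a := Nat.pos_of_ne_zero ha.ne_zero
  have har : (0 : ℝ) < a := by exact_mod_cast ha0
  have h4 : ¬ 4 ∣ a := by
    intro h
    have h1 : IsUnit 2 := ha 2 (by simpa using h)
    rw [Nat.isUnit_iff] at h1
    omega
  obtain ⟨n, hns, ⟨b, rfl⟩, hn8, hn16, hnle, hcong⟩ := hK a ha a h4 (fun h => h)
  have hcop : Nat.Coprime a b := Nat.coprime_of_squarefree_mul hns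
  refine ⟨b, hns.squarefree_of_dvd (dvd_mul_left _ _), hcop, ?_, ?_, hcong⟩
  · by_cases he : 2 ∣ a
    · obtain ⟨d, rfl⟩ := he
      have h16 := hn16 (dvd_mul_right 2 d)
      have hdo : d % 2 = 1 := by omega
      have h5 : 2 * d * b = 2 * (d * b) := by ring
      rw [h5] at h16
      have h6 : (d * b) % 8 = d % 8 := by omega
      have h7 : (d * (d * b)) % 8 = (d * d) % 8 := by
        rw [Nat.mul_mod, h6, ← Nat.mul_mod]
      have h8 : (d * d) % 8 = 1 := by
        have := G.odd_sq_mod8 hdo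
        rwa [sq] at this
      have h9 : d * (d * b) = (d * d) * b := by ring
      rw [h9, Nat.mul_mod, h8, one_mul] at h7
      omega
    · have hao : a % 2 = 1 := by omega
      have h7 : (a * (a * b)) % 8 = (a * a) % 8 := by
        rw [Nat.mul_mod, hn8, ← Nat.mul_mod]
      have h8 : (a * a) % 8 = 1 := by
        have := G.odd_sq_mod8 hao
        rwa [sq] at this
      have h9 : a * (a * b) = (a * a) * b := by ring
      rw [h9, Nat.mul_mod, h8, one_mul] at h7
      omega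
  · have h5 : ((a * b : ℕ) : ℝ) ≤ K * ((a : ℝ) ^ (1 + ε) * a) := by
      rw [← Real.rpow_add_one har.ne']
      have : 1 + ε + 1 = 2 + ε := by ring
      rw [this]
      exact hnle
    push_cast at h5
    have h6 : (a : ℝ) * b ≤ a * (K * (a : ℝ) ^ (1 + ε)) := by
      calc (a : ℝ) * b ≤ K * ((a : ℝ) ^ (1 + ε) * a) := h5
        _ = a * (K * (a : ℝ) ^ (1 + ε)) := by ring
    exact le_of_mul_le_mul_left h6 har
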