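import Pool.Agent.Work.MP_8efaaa_nt.W6.Fin4
import Pool.Agent.Work.MP_8efaaa_nt.Z6.Main
import Pool.Agent.Work.MP_8efaaa_nt.Z6.MA7
import Pool.Agent.Work.MP_8efaaa_nt.Z6.MB5
import Pool.Agent.Work.MP_8efaaa_nt.Q7.Main

/-!
# Congruent numbers `a = p q`, `2 p q` with two odd prime factors

Let `a = 5, 6, 7 (mod 8)` be `p q` or `2 p q` with primes `p = 1 (mod 8)` and `q`. If `a` is not a congruent
number, then
(1) `c` is an eighth power modulo `p`, where `c = -4` if `a` is odd, `c = -1` if `a = 14 (mod 16)` and `c = 4`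
if `a = 6 (mod 16)`;
(2) `q^2` (if `a` is odd) or `-q^2` (if `a` is even) is an eighth power modulo `p`;
(3) `y` is a square modulo `p` for all integers `x`, `y` with `a = x^2 + y^2` if `a = 5 (mod 8)`,
`a = x^2 - 2 y^2` if `a = 7 (mod 8)`, `a = x^2 + 2 y^2` if `a = 6 (mod 16)`, `a = 2 y^2 - x^2` if
`a = 14 (mod 16)`.

`IsCongruent` is defined in `Pool.Agent.Work.MP_8efaaa_nt.Defs`.
-/

set_option autoImplicit false

namespace Pool.Agent.Results.MP_8efaaa_nt.TwoOddPrimes

open Pool.Agent.Work.MP_8efaaa_nt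

/-- in the cyclic group `(ZMod p)ˣ` an element killed by the cofactor of `n` is an `n`-th power -/
theorem exists_pow {p n m : ℕ} (hp : p.Prime) (hm0 : 0 < m) (hm : p - 1 = n * m) {c : ZMod p}
    (hc : c ≠ 0) (h : c ^ m = 1) : ∃ x : ZMod p, x ^ n = c := by
  have hpF : Fact p.Prime := ⟨hp⟩
  obtain ⟨g, hg⟩ := IsCyclic.exists_generator (α := (ZMod p)ˣ)
  obtain ⟨k, hk⟩ := Subgroup.mem_zpowers_iff.1 (hg (Units.mk0 _ hc))
  have hord : orderOf g = p - 1 := by
    rw [orderOf_eq_card_of_forall_mem_zpowers hg, Nat.card_eq_fintype_card, ZMod.card_units]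
  have h8 : g ^ (k * m) = 1 := by
    rw [zpow_mul, hk, zpow_natCast]
    apply Units.ext
    rw [Units.val_pow_eq_pow_val, Units.val_mk0, h, Units.val_one]
  have h9 : ((p - 1 : ℕ) : ℤ) ∣ k * m := by
    rw [← hord]
    exact orderOf_dvd_iff_zpow_eq_one.2 h8
  have hm' : (m : ℤ) ≠ 0 := by exact_mod_cast hm0.ne'
  have h10 : (n : ℤ) ∣ k := by
    rw [hm] at h9
    push_cast at h9
    exact (mul_dvd_mul_iff_right hm').1 h9
  obtain ⟨j, rfl⟩ := h10
  refine ⟨((g ^ j : (ZMod p)ˣ) : ZMod p), ?_⟩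
  have h11 := congrArg (Units.val) hk
  rw [Units.val_mk0, mul_comm, zpow_mul, zpow_natCast, Units.val_pow_eq_pow_val] at h11
  exact h11

private theorem sq_of_jac {p : ℕ} (hp : p.Prime) {y : ℤ} (h : jacobiSym y p = 1) :
    IsSquare ((y : ℤ) : ZMod p) := by
  have hpF : Fact p.Prime := ⟨hp⟩
  rw [← jacobiSym.legendreSym.to_jacobiSym] at h
  have h0 : ((y : ℤ) : ZMod p) ≠ 0 := by
    intro h0
    rw [(legendreSym.eq_zero_iff p y).2 h0] at h
    exact absurd h (by norm_num)
  exact (legendreSym.eq_one_iff p h0).1 h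

private theorem sq_pow {p : ℕ} (hp : p.Prime) (hp8 : p % 8 = 1) {e : ZMod p} {q : ℕ}
    (hq : (q : ZMod p) ≠ 0) (he : e ≠ 0)
    (h : e ^ ((p - 1) / 8) * (q : ZMod p) ^ ((p - 1) / 4) = 1) :
    ∃ x : ZMod p, x ^ 8 = e * (q : ZMod p) ^ 2 := by
  have hpF : Fact p.Prime := ⟨hp⟩
  have h1 := hp.one_lt
  refine exists_pow (m := (p - 1) / 8) hp (by omega) (by omega)
    (mul_ne_zero he (pow_ne_zero 2 hq)) ?_
  rw [mul_pow, ← pow_mul]
  have e1 : 2 * ((p - 1) / 8) = (p - 1) / 4 := by omega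
  rw [e1]
  exact h

/-- Let `a = 5, 6, 7 (mod 8)` be `p q` or `2 p q` with primes `p = 1 (mod 8)` and `q`. If `a` is not a congruent
number, then three explicit conditions hold. -/
theorem result {a p q : ℕ} (hp : p.Prime) (hq : q.Prime) (hp8 : p % 8 = 1)
    (ha : a = p * q ∨ a = 2 * p * q) (ha8 : a % 8 = 5 ∨ a % 8 = 6 ∨ a % 8 = 7)
    (h : ¬ IsCongruent a) :
    (∃ z : ZMod p, z ^ 8 = if a % 2 = 1 then -4 else if a % 16 = 14 then -1 else 4) ∧
    (∃ z : ZMod p, z ^ 8 = if a % 2 = 1 then (q : ZMod p) ^ 2 else -(q : ZMod p) ^ 2) ∧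
    ∀ x y : ℤ, (a : ℤ) = (if a % 8 = 5 then x ^ 2 + y ^ 2 else if a % 8 = 7 then x ^ 2 - 2 * y ^ 2
      else if a % 16 = 6 then x ^ 2 + 2 * y ^ 2 else 2 * y ^ 2 - x ^ 2) →
      IsSquare (y : ZMod p) := by
  have hpF : Fact p.Prime := ⟨hp⟩
  have hp1 := hp.one_lt
  have hpq8 : (p * q) % 8 = q % 8 := by rw [Nat.mul_mod, hp8]; omega
  have e2 : 2 * p * q = 2 * (p * q) := by ring
  have hq2 : q % 2 = 1 ∨ q = 2 := by
    rcases hq.eq_two_or_odd with h | h
    · exact Or.inr h
    · exact Or.inl h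
  have h2 : (2 : ZMod p) ≠ 0 := by
    intro h2
    have h' : ((2 : ℕ) : ZMod p) = 0 := by exact_mod_cast h2
    rw [ZMod.natCast_eq_zero_iff] at h'
    have := (Nat.prime_dvd_prime_iff_eq hp Nat.prime_two).1 h'
    omega
  have hq8' : q % 8 ≠ 1 := by
    intro hq1
    rcases ha with rfl | rfl
    · omega
    · rw [e2] at ha8
      omega
  have hq0 : (q : ZMod p) ≠ 0 := by
    intro h0
    rw [ZMod.natCast_eq_zero_iff] at h0
    have := (Nat.prime_dvd_prime_iff_eq hp hq).1 h0
    subst this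
    exact hq8' hp8
  have key : ∀ c : ℤ, ((c = -4 ∧ (a % 8 = 5 ∨ a % 8 = 7)) ∨ (c = 4 ∧ a % 16 = 6) ∨
      (c = -1 ∧ a % 16 = 14)) → ∃ x : ZMod p, x ^ 8 = c := by
    intro c hc
    by_contra hcon
    exact h (W6.four hp hq hp8 ha hc hcon)
  have hone : ∀ e : ZMod p, (∃ z : ZMod p, z ^ 8 = e) → e ≠ 0 → e ^ ((p - 1) / 8) = 1 := by
    rintro e ⟨z, rfl⟩ he
    have hz : z ≠ 0 := by
      rintro rfl
      exact he (by norm_num)
    rw [← pow_mul]
    have e1 : 8 * ((p - 1) / 8) = p - 1 := by omega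
    rw [e1]
    exact ZMod.pow_card_sub_one_eq_one hz
  rcases ha with rfl | rfl
  · -- `a = p q`
    have hq8 : q % 8 = 5 ∨ q % 8 = 7 := by omega
    have ho : p * q % 2 = 1 := by omega
    have h4 : ∃ z : ZMod p, z ^ 8 = -4 := by
      obtain ⟨z, hz⟩ := key (-4) (Or.inl ⟨rfl, by omega⟩)
      refine ⟨z, ?_⟩
      rw [hz]
      push_cast
      rfl
    simp only [if_pos ho]
    refine ⟨h4, ?_, ?_⟩
    · have h5 : (q : ZMod p) ^ ((p - 1) / 4) = 1 := by
        rcases hq8 with hq8 | hq8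
        · exact (Z6.main_5v hp hq hp8 hq8 h).1
        · exact (Z6.main_7 hp hq hp8 hq8 h).1
      obtain ⟨z, hz⟩ := sq_pow hp hp8 (e := 1) hq0 one_ne_zero (by rw [one_pow, one_mul, h5])
      exact ⟨z, by rw [hz, one_mul]⟩
    · intro x y hxy
      rcases hq8 with hq8 | hq8
      · rw [if_pos (by omega)] at hxy
        push_cast at hxy
        exact sq_of_jac hp ((Z6.main_5v hp hq hp8 hq8 h).2 x y hxy.symm)
      · rw [if_neg (by omega), if_pos (by omega)] at hxy
        push_cast at hxy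
        have h5 := (Z6.main_7 hp hq hp8 hq8 h).2 x y hxy.symm
        -- `2^((p-1)/4) = (-1)^((p-1)/8)`
        have h44 : (-4 : ZMod p) ≠ 0 := by
          have e1 : (-4 : ZMod p) = -(2 * 2) := by norm_num
          rw [e1]
          exact neg_ne_zero.2 (mul_ne_zero h2 h2)
        have h6 := hone (-4) h4 h44
        obtain ⟨m, hm⟩ : ∃ m, (p - 1) / 8 = m := ⟨_, rfl⟩
        have hm4 : (p - 1) / 4 = 2 * m := by omega
        have hm2 : (p - 1) / 2 = 2 * (2 * m) := by omega
        rw [hm] at h5 h6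
        have e1 : (-4 : ZMod p) = (-1) * 2 ^ 2 := by norm_num
        rw [e1, mul_pow, ← pow_mul] at h6
        have hjx : ((jacobiSym x p : ℤ) : ZMod p) = (x : ZMod p) ^ ((p - 1) / 2) := by
          rw [← jacobiSym.legendreSym.to_jacobiSym, legendreSym.eq_pow]
          congr 1
          omega
        have hjy : ((jacobiSym y p : ℤ) : ZMod p) = (y : ZMod p) ^ ((p - 1) / 2) := by
          rw [← jacobiSym.legendreSym.to_jacobiSym, legendreSym.eq_pow]
          congr 1
          omega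
        have h7 : (x : ZMod p) ^ 2 = 2 * (y : ZMod p) ^ 2 := by
          have h8 : (((p : ℤ) * q : ℤ) : ZMod p) = ((x ^ 2 - 2 * y ^ 2 : ℤ) : ZMod p) := by
            rw [hxy]
          push_cast at h8
          rw [ZMod.natCast_self, zero_mul] at h8
          linear_combination (-1) * h8
        rw [h5] at hjx
        push_cast at hjx
        rw [hm2, pow_mul, h7, mul_pow, ← pow_mul (y : ZMod p), ← hm2, ← hjy] at hjx
        have h9 : ((jacobiSym y p : ℤ) : ZMod p) = 1 := by
          have h10 : ((-1 : ZMod p) ^ m) * (-1) ^ m = 1 := by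
            rw [← mul_pow]
            norm_num
          calc ((jacobiSym y p : ℤ) : ZMod p)
              = ((-1) ^ m * 2 ^ (2 * m)) * ((jacobiSym y p : ℤ) : ZMod p) := by
                rw [h6, one_mul]
            _ = (-1) ^ m * (2 ^ (2 * m) * ((jacobiSym y p : ℤ) : ZMod p)) := by ring
            _ = 1 := by rw [← hjx, h10]
        refine sq_of_jac hp ?_
        rcases jacobiSym.trichotomy y p with h11 | h11 | h11
        · rw [h11] at h9
          exact absurd h9 (by simp)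
        · exact h11
        · exfalso
          rw [h11] at h9
          push_cast at h9
          apply h2
          linear_combination (-1) * h9
  · -- `a = 2 p q`
    have hne : ¬ 2 * p * q % 2 = 1 := by rw [e2]; omega
    have hqo : q % 2 = 1 := by
      rcases hq2 with h3 | h3
      · exact h3
      · subst h3
        omega
    have hq8 : q % 8 = 3 ∨ q % 8 = 7 := by
      rw [e2] at ha8
      omega
    simp only [if_neg hne]
    have hpow : ∀ m : ℕ, ((-1 : ZMod p) ^ m) * (-1) ^ m = 1 := by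
      intro m
      rw [← mul_pow]
      norm_num
    have hz : ∀ x : ℤ, Even (x ^ 2) → ∃ z, x = 2 * z := by
      intro x hx
      obtain ⟨z, hz⟩ := (Int.even_pow' (by norm_num : (2 : ℕ) ≠ 0)).1 hx
      exact ⟨z, by rw [hz]; ring⟩
    rcases hq8 with hq8 | hq8
    · -- `a = 6 (mod 16)`
      have h6 : 2 * p * q % 16 = 6 := by rw [e2]; omega
      obtain ⟨h7, h8, h9⟩ := Z6.main_z6 hp hq hp8 hq8 h
      have h14 : ¬ 2 * p * q % 16 = 14 := by omega
      simp only [if_neg h14]
      refine ⟨?_, ?_, ?_⟩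
      · obtain ⟨z, hz⟩ := key 4 (Or.inr (Or.inl ⟨rfl, h6⟩))
        refine ⟨z, ?_⟩
        rw [hz]
        push_cast
        rfl
      · obtain ⟨z, hz⟩ := sq_pow hp hp8 (e := -1) hq0 (neg_ne_zero.2 one_ne_zero)
          (by rw [h8]; exact hpow _)
        exact ⟨z, by rw [hz]; ring⟩
      · intro x y hxy
        rw [if_neg (by omega), if_neg (by omega), if_pos h6] at hxy
        push_cast at hxy
        obtain ⟨z, rfl⟩ := hz x ⟨p * q - y ^ 2, by linear_combination (-1) * hxy⟩
        refine sq_of_jac hp (h9 y z (mul_left_cancel₀ (two_ne_zero (α := ℤ)) ?_))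
        linear_combination (-1) * hxy
    · -- `a = 14 (mod 16)`
      have h14 : 2 * p * q % 16 = 14 := by rw [e2]; omega
      obtain ⟨-, h8, h9⟩ := Q7.main_q7 hp hq hp8 hq8 h
      simp only [if_pos h14]
      have h7 : ∃ z : ZMod p, z ^ 8 = -1 := by
        obtain ⟨z, hz⟩ := key (-1) (Or.inr (Or.inr ⟨rfl, h14⟩))
        refine ⟨z, ?_⟩
        rw [hz]
        push_cast
        rfl
      refine ⟨h7, ?_, ?_⟩
      · have h10 := hone (-1) h7 (neg_ne_zero.2 one_ne_zero)
        obtain ⟨z, hz⟩ := sq_pow hp hp8 (e := -1) hq0 (neg_ne_zero.2 one_ne_zero)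
          (by rw [h8, h10, one_mul])
        exact ⟨z, by rw [hz]; ring⟩
      · intro x y hxy
        rw [if_neg (by omega), if_neg (by omega), if_neg (by omega)] at hxy
        push_cast at hxy
        obtain ⟨z, rfl⟩ := hz x ⟨y ^ 2 - p * q, by linear_combination hxy⟩
        refine sq_of_jac hp (h9 y z (mul_left_cancel₀ (two_ne_zero (α := ℤ)) ?_))
        linear_combination (-1) * hxy

end Pool.Agent.Results.MP_8efaaa_nt.TwoOddPrimes
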